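import Mathlib

set_option autoImplicit false

namespace Pool.Agent.Results.MP_ff06a2_an.No

open MeasureTheory Set unitInterval

/-- Admissible pairs for the dual problem. -/
def Adm {X : Type} [MeasurableSpace X] (ρ μ : Measure X) (c : X × X → ℝ) (φ ψ : X → ℝ) : Prop :=
  Integrable φ ρ ∧ Integrable ψ μ ∧ ∀ x y, φ x + ψ y ≤ c (x, y)

/-- Kantorovich potentials: admissible pairs maximising the dual functional. -/
def Opt {X : Type} [MeasurableSpace X] (ρ μ : Measure X) (c : X × X → ℝ) (φ ψ : X → ℝ) : Prop :=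
  Adm ρ μ c φ ψ ∧ ∀ φ' ψ', Adm ρ μ c φ' ψ' →
    ∫ x, φ' x ∂ρ + ∫ y, ψ' y ∂μ ≤ ∫ x, φ x ∂ρ + ∫ y, ψ y ∂μ

noncomputable def e (x : ℝ) : ℂ := Complex.exp (Complex.I * x)

lemma e_norm (x : ℝ) : ‖e x‖ = 1 := by
  unfold e; rw [mul_comm]; exact Complex.norm_exp_ofReal_mul_I x

lemma e_sub (x y : ℝ) : ‖e x - e y‖ = ‖e (x - y) - 1‖ := by
  have : e x - e y = (e (x - y) - 1) * e y := by
    unfold e
    rw [sub_mul, ← Complex.exp_add]
    push_cast
    ring_nf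
  rw [this, norm_mul, e_norm, mul_one]

lemma e_le (x y : ℝ) : ‖e x - e y‖ ≤ |x - y| := by
  rw [e_sub]; exact Real.norm_exp_I_mul_ofReal_sub_one_le

lemma e_ge (θ : ℝ) (h1 : 1 / 4 < |θ|) (h2 : |θ| ≤ 1) : 3 / 16 ≤ ‖e θ - 1‖ := by
  have h : |(e θ - 1).im| ≤ ‖e θ - 1‖ := Complex.abs_im_le_norm _
  have e1 : (e θ - 1).im = Real.sin θ := by
    unfold e; rw [mul_comm]; simp [Complex.exp_ofReal_mul_I_im]
  rw [e1] at h
  have h3 : Real.sin |θ| ≤ |Real.sin θ| := by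
    rcases abs_cases θ with h | h
    · rw [h.1]; exact le_abs_self _
    · rw [h.1, Real.sin_neg]; exact neg_le_abs _
  have h4 := Real.sin_gt_sub_cube (x := |θ|) (by linarith)
  have h5 : |θ| ^ 3 ≤ |θ| := by nlinarith [mul_nonneg (abs_nonneg θ) (abs_nonneg θ)]
  linarith

noncomputable def tm (j l : ℕ) (t : ℝ) : ℂ := ((1 / 2 : ℝ) ^ (5 * l + j) : ℝ) * e (4 ^ (5 * l + j) * t)

noncomputable def z (j : ℕ) (t : ℝ) : ℂ := ∑' l, tm j l t

lemma tm_norm (j l : ℕ) (t : ℝ) : ‖tm j l t‖ = (1 / 2) ^ j * (1 / 32) ^ l := by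
  unfold tm
  rw [norm_mul, e_norm, Complex.norm_real, Real.norm_eq_abs, abs_of_pos (by positivity), pow_add,
    pow_mul]
  norm_num [mul_comm]

lemma geo : HasSum (fun l : ℕ => (1 / 32 : ℝ) ^ l) (32 / 31) := by
  have := hasSum_geometric_of_lt_one (r := (1 / 32 : ℝ)) (by norm_num) (by norm_num)
  norm_num at this ⊢
  exact this

lemma tm_summable (j : ℕ) (t : ℝ) : Summable fun l => tm j l t :=
  Summable.of_norm (by simp only [tm_norm]; exact geo.summable.mul_left _)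

lemma z_cont (j : ℕ) : Continuous (z j) :=
  continuous_tsum (u := fun l => (1 / 2) ^ j * (1 / 32) ^ l)
    (fun l => by unfold tm e; fun_prop) (geo.summable.mul_left _) (fun l t => (tm_norm j l t).le)

lemma geo_fin (L : ℕ) : ∑ l ∈ Finset.range L, (32 : ℝ) ^ l ≤ 32 ^ L / 31 := by
  induction L with
  | zero => simp
  | succ L ih => rw [Finset.sum_range_succ, pow_succ]; linarith

lemma main (s t : ℝ) (h0 : s ≠ t) (h1 : |s - t| ≤ 1) :
    ∃ j < 5, |s - t| / 144 ≤ ‖z j s - z j t‖ ^ 2 := by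
  have hδ : 0 < |s - t| := abs_pos.2 (sub_ne_zero.2 h0)
  obtain ⟨k, hk1, hk2⟩ := exists_nat_pow_near_of_lt_one hδ h1 (by norm_num : (0 : ℝ) < 1 / 4)
    (by norm_num)
  obtain ⟨L, j, hj, rfl⟩ : ∃ L j, j < 5 ∧ k = 5 * L + j :=
    ⟨k / 5, k % 5, Nat.mod_lt _ (by norm_num), (Nat.div_add_mod k 5).symm⟩
  refine ⟨j, hj, ?_⟩
  set q : ℝ := (1 / 2) ^ (5 * L + j) with hq
  have hq0 : 0 < q := by positivity
  have hq2 : (1 / 4 : ℝ) ^ (5 * L + j) = q ^ 2 := by
    rw [hq, ← pow_mul, mul_comm _ 2, pow_mul]; norm_num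
  have hq4 : (4 : ℝ) ^ (5 * L + j) * q ^ 2 = 1 := by
    rw [← hq2, ← mul_pow]; norm_num
  have hq3 : (2 : ℝ) ^ j * 32 ^ L * q = 1 := by
    have : (32 : ℝ) ^ L = 2 ^ (5 * L) := by rw [pow_mul]; norm_num
    rw [this, ← pow_add, hq, add_comm j, ← mul_pow]; norm_num
  have hq5 : q = (1 / 2) ^ j * (1 / 32) ^ L := by
    rw [hq, pow_add, pow_mul]; norm_num [mul_comm]
  rw [pow_succ, hq2] at hk1
  rw [hq2] at hk2
  set a : ℕ → ℂ := fun l => tm j l s - tm j l t with ha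
  have hs : Summable a := (tm_summable j s).sub (tm_summable j t)
  have hz : z j s - z j t = ∑' l, a l := ((tm_summable j s).tsum_sub (tm_summable j t)).symm
  have hsplit := hs.sum_add_tsum_nat_add (L + 1)
  rw [Finset.sum_range_succ] at hsplit
  have an : ∀ l, ‖a l‖ = (1 / 2) ^ (5 * l + j) * ‖e (4 ^ (5 * l + j) * s) - e (4 ^ (5 * l + j) * t)‖ := by
    intro l
    simp only [ha, tm]
    rw [← mul_sub, norm_mul, Complex.norm_real, Real.norm_eq_abs, abs_of_pos (by positivity)]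
  have b1 : ‖∑ l ∈ Finset.range L, a l‖ ≤ q / 31 := by
    have : ∀ l ∈ Finset.range L, ‖a l‖ ≤ 2 ^ j * q ^ 2 * 32 ^ l := by
      intro l _
      rw [an]
      have h3 := e_le (4 ^ (5 * l + j) * s) (4 ^ (5 * l + j) * t)
      rw [← mul_sub, abs_mul, abs_of_pos (by positivity : (0 : ℝ) < 4 ^ (5 * l + j))] at h3
      have h4 : (1 / 2 : ℝ) ^ (5 * l + j) * 4 ^ (5 * l + j) = 2 ^ j * 32 ^ l := by
        rw [← mul_pow, pow_add, pow_mul]; norm_num [mul_comm]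
      calc _ ≤ (1 / 2 : ℝ) ^ (5 * l + j) * (4 ^ (5 * l + j) * q ^ 2) := by
            gcongr
            exact h3.trans (by gcongr)
        _ = _ := by rw [← mul_assoc, h4]; ring
    calc _ ≤ ∑ l ∈ Finset.range L, 2 ^ j * q ^ 2 * (32 : ℝ) ^ l :=
          (norm_sum_le _ _).trans (Finset.sum_le_sum this)
      _ = 2 ^ j * q ^ 2 * ∑ l ∈ Finset.range L, (32 : ℝ) ^ l := by rw [Finset.mul_sum]
      _ ≤ 2 ^ j * q ^ 2 * (32 ^ L / 31) := by gcongr; exact geo_fin L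
      _ = (2 ^ j * 32 ^ L * q) * q / 31 := by ring
      _ = q / 31 := by rw [hq3, one_mul]
  have b2 : ‖∑' l, a (l + (L + 1))‖ ≤ q / 16 * (32 / 31) := by
    refine tsum_of_norm_bounded (geo.mul_left (q / 16)) fun l => ?_
    calc ‖a (l + (L + 1))‖ ≤ ‖tm j (l + (L + 1)) s‖ + ‖tm j (l + (L + 1)) t‖ := norm_sub_le _ _
      _ = q / 16 * (1 / 32) ^ l := by
        rw [tm_norm, tm_norm, hq5, pow_add, pow_succ]; ring
  have b3 : q * (3 / 16) ≤ ‖a L‖ := by
    rw [an, e_sub]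
    have hp : (0 : ℝ) < 4 ^ (5 * L + j) := by positivity
    have h3 : |4 ^ (5 * L + j) * s - 4 ^ (5 * L + j) * t| = 4 ^ (5 * L + j) * |s - t| := by
      rw [← mul_sub, abs_mul, abs_of_pos hp]
    have := e_ge (4 ^ (5 * L + j) * s - 4 ^ (5 * L + j) * t) (by rw [h3]; nlinarith)
      (by rw [h3]; nlinarith)
    exact mul_le_mul_of_nonneg_left this hq0.le
  have b4 : ‖a L‖ ≤ ‖∑' l, a l‖ + ‖∑ l ∈ Finset.range L, a l‖ + ‖∑' l, a (l + (L + 1))‖ := by
    have : a L = ∑' l, a l - ∑ l ∈ Finset.range L, a l - ∑' l, a (l + (L + 1)) := by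
      rw [← hsplit]; ring
    rw [this]
    exact (norm_sub_le _ _).trans (by gcongr; exact norm_sub_le _ _)
  rw [hz]
  have b5 : q / 12 ≤ ‖∑' l, a l‖ := by linarith
  nlinarith

noncomputable def Γ (t : I) : EuclideanSpace ℝ (Fin 10) :=
  WithLp.toLp 2 fun i => if i.val < 5 then (z i.val t).re else (z (i.val - 5) t).im

lemma Γ_cont : Continuous Γ := by
  unfold Γ
  refine (PiLp.continuous_toLp 2 _).comp (continuous_pi fun i => ?_)
  split_ifs
  · exact Complex.continuous_re.comp ((z_cont _).comp continuous_subtype_val)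
  · exact Complex.continuous_im.comp ((z_cont _).comp continuous_subtype_val)

lemma Γ_low (s t : I) : |(s : ℝ) - t| / 144 ≤ ‖Γ s - Γ t‖ ^ 2 := by
  by_cases h : (s : ℝ) = t
  · rw [h]; simp
  have h1 : |(s : ℝ) - t| ≤ 1 := by
    rw [abs_le]; constructor <;> linarith [s.2.1, s.2.2, t.2.1, t.2.2]
  obtain ⟨j, hj, hm⟩ := main s t h h1
  refine hm.trans ?_
  rw [EuclideanSpace.real_norm_sq_eq, Complex.sq_norm, Complex.normSq_apply]
  have hne : (⟨j, by omega⟩ : Fin 10) ≠ ⟨j + 5, by omega⟩ := by simp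
  have := Finset.sum_le_sum_of_subset_of_nonneg (f := fun i : Fin 10 => (Γ s - Γ t) i ^ 2)
    (Finset.subset_univ {(⟨j, by omega⟩ : Fin 10), ⟨j + 5, by omega⟩}) (fun i _ _ => sq_nonneg _)
  rw [Finset.sum_pair hne] at this
  refine le_trans (le_of_eq ?_) this
  simp [Γ, hj, sq]

lemma Γ_inj : Function.Injective Γ := by
  intro s t h
  have := Γ_low s t
  rw [h, sub_self, norm_zero] at this
  have h2 : |(s : ℝ) - t| = 0 := le_antisymm (by linarith) (abs_nonneg _)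
  exact Subtype.ext (sub_eq_zero.1 (abs_eq_zero.1 h2))

lemma Γ_emb : MeasurableEmbedding Γ := (Γ_cont.isClosedEmbedding Γ_inj).measurableEmbedding

noncomputable def ρ : Measure (EuclideanSpace ℝ (Fin 10)) := Measure.map Γ volume

lemma supp : ρ.support = range Γ := by
  have hcl : IsClosed (range Γ) := (isCompact_range Γ_cont).isClosed
  apply Subset.antisymm
  · apply Measure.support_subset_of_isClosed hcl
    exact Γ_emb.ae_map_iff.2 (Filter.Eventually.of_forall fun t => mem_range_self t)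
  · rintro _ ⟨t, rfl⟩
    rw [Measure.mem_support_iff_forall]
    intro U hU
    obtain ⟨V, hVU, hV, hx⟩ := mem_nhds_iff.1 hU
    obtain ⟨a, b, hab, hsub⟩ := (hV.preimage Γ_cont).exists_Ioo_subset ⟨t, hx⟩
    have h1 : 0 < (volume : Measure I) (Ioo a b) := by
      rw [unitInterval.volume_Ioo]
      exact ENNReal.ofReal_pos.2 (sub_pos.2 hab)
    unfold ρ
    rw [Γ_emb.map_apply]
    exact h1.trans_le (measure_mono (hsub.trans (preimage_mono hVU)))

lemma integ {g : EuclideanSpace ℝ (Fin 10) → ℝ} (h : Continuous (g ∘ Γ)) : Integrable g ρ :=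
  Γ_emb.integrable_map_iff.2
    (h.integrable_of_hasCompactSupport (HasCompactSupport.of_compactSpace _))

lemma dual_le {φ ψ : EuclideanSpace ℝ (Fin 10) → ℝ}
    (h : Adm ρ ρ (fun p => ‖p.1 - p.2‖ ^ 2) φ ψ) : ∫ x, φ x ∂ρ + ∫ y, ψ y ∂ρ ≤ 0 := by
  rw [← integral_add h.1 h.2.1]
  apply integral_nonpos
  intro x
  simpa using h.2.2 x x

theorem result : ∃ (d : ℕ) (ρ μ : Measure (EuclideanSpace ℝ (Fin d)))
    (c : EuclideanSpace ℝ (Fin d) × EuclideanSpace ℝ (Fin d) → ℝ)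
    (a b : EuclideanSpace ℝ (Fin d) → ℝ),
    1 ≤ d ∧ IsProbabilityMeasure ρ ∧ IsProbabilityMeasure μ ∧ Bornology.IsBounded μ.support ∧
    (∀ x y, c (x, y) = ‖x - y‖ ^ 2) ∧ ContDiff ℝ 1 c ∧
    UpperSemicontinuous a ∧ UpperSemicontinuous b ∧ Integrable a ρ ∧ Integrable b μ ∧
    (∀ x y, |c (x, y)| ≤ a x + b y) ∧ IsConnected ρ.support ∧
    ∃ φ₀ ψ₀ φ₁ ψ₁, Opt ρ μ c φ₀ ψ₀ ∧ Opt ρ μ c φ₁ ψ₁ ∧
      ¬ ∃ l : ℝ, ∀ᵐ x ∂ρ, φ₀ x - φ₁ x = l := by
  classical
  have hprob : IsProbabilityMeasure ρ := Measure.isProbabilityMeasure_map Γ_cont.aemeasurable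
  have hc2 : Continuous fun x : EuclideanSpace ℝ (Fin 10) => 2 * ‖x‖ ^ 2 := by fun_prop
  let h : EuclideanSpace ℝ (Fin 10) → ℝ := fun x => (Function.invFun Γ x : I)
  have hh : ∀ t, h (Γ t) = t := fun t => by
    simp only [h]; rw [Function.leftInverse_invFun Γ_inj t]
  let φ : EuclideanSpace ℝ (Fin 10) → ℝ := fun x => if x ∈ range Γ then h x / 144 else -1
  let ψ : EuclideanSpace ℝ (Fin 10) → ℝ := fun x => if x ∈ range Γ then - (h x / 144) else -1
  have hφ : ∀ t, φ (Γ t) = (t : ℝ) / 144 := fun t => by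
    simp only [φ, if_pos (mem_range_self t), hh]
  have hψ : ∀ t, ψ (Γ t) = - ((t : ℝ) / 144) := fun t => by
    simp only [ψ, if_pos (mem_range_self t), hh]
  have iφ : Integrable φ ρ := integ (by
    have : φ ∘ Γ = fun t : I => (t : ℝ) / 144 := funext hφ
    rw [this]; fun_prop)
  have iψ : Integrable ψ ρ := integ (by
    have : ψ ∘ Γ = fun t : I => - ((t : ℝ) / 144) := funext hψ
    rw [this]; fun_prop)
  refine ⟨10, ρ, ρ, fun p => ‖p.1 - p.2‖ ^ 2, fun x => 2 * ‖x‖ ^ 2, fun x => 2 * ‖x‖ ^ 2,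
    by norm_num, hprob, hprob, ?_, fun _ _ => rfl, ?_, hc2.upperSemicontinuous,
    hc2.upperSemicontinuous, integ (hc2.comp Γ_cont), integ (hc2.comp Γ_cont), ?_, ?_,
    fun _ => 0, fun _ => 0, φ, ψ, ⟨⟨integrable_zero _ _ _, integrable_zero _ _ _, ?_⟩, ?_⟩,
    ⟨⟨iφ, iψ, ?_⟩, ?_⟩, ?_⟩
  · rw [supp]; exact (isCompact_range Γ_cont).isBounded
  · exact ContDiff.norm_sq ℝ (contDiff_fst.sub contDiff_snd)
  · intro x y
    have h1 := norm_sub_le x y
    rw [abs_of_nonneg (by positivity)]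
    nlinarith [norm_nonneg (x - y), norm_nonneg x, norm_nonneg y, sq_nonneg (‖x‖ - ‖y‖)]
  · rw [supp]; exact isConnected_range Γ_cont
  · intro x y; simp
  · intro φ' ψ' h'; simpa using dual_le h'
  · intro x y
    have hn : 0 ≤ ‖x - y‖ ^ 2 := by positivity
    by_cases hx : x ∈ range Γ <;> by_cases hy : y ∈ range Γ
    · obtain ⟨s, rfl⟩ := hx
      obtain ⟨t, rfl⟩ := hy
      rw [hφ, hψ]
      have := Γ_low s t
      have h2 := le_abs_self ((s : ℝ) - t)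
      show _ ≤ ‖Γ s - Γ t‖ ^ 2
      linarith
    · obtain ⟨s, rfl⟩ := hx
      rw [hφ]
      simp only [ψ, if_neg hy]
      linarith [s.2.2]
    · obtain ⟨t, rfl⟩ := hy
      rw [hψ]
      simp only [φ, if_neg hx]
      linarith [t.2.1]
    · simp only [φ, ψ, if_neg hx, if_neg hy]
      linarith
  · intro φ' ψ' h'
    have e0 : ∫ x, φ x ∂ρ + ∫ y, ψ y ∂ρ = 0 := by
      rw [← integral_add iφ iψ]
      unfold ρ
      rw [Γ_emb.integral_map]
      simp [hφ, hψ]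
    rw [e0]; exact dual_le h'
  · rintro ⟨l, hl⟩
    have h1 : ∀ᵐ t : I, (0 : ℝ) - φ (Γ t) = l := Γ_emb.ae_map_iff.1 hl
    have h2 : ∀ᵐ t : I, t ≠ projIcc 0 1 zero_le_one (-(144 * l)) := by
      simp [ae_iff]
    obtain ⟨t, ht1, ht2⟩ := (h1.and h2).exists
    apply ht2
    rw [hφ] at ht1
    have : -(144 * l) = (t : ℝ) := by linarith
    rw [this, projIcc_val]

end Pool.Agent.Results.MP_ff06a2_an.No
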